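import Pool.Agent.GenShape.Cross

/-!
Singular chains: linearity of the boundary, functoriality, and the fundamental cycle of the
cross-polytope.
-/

namespace Pool.Agent.GenShape

section General

variable {X Y : Type} [TopologicalSpace X] [TopologicalSpace Y]

/-- The boundary as a linear map. -/
noncomputable def bd (X : Type) [TopologicalSpace X] (n : ℕ) : Chain X (n + 1) →ₗ[ℝ] Chain X n :=
  Finsupp.linearCombination ℝ fun σ => ∑ i : Fin (n + 2),
    Finsupp.single (σ.comp (simplexMap i.succAbove)) ((-1) ^ (i : ℕ))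

lemma boundary_eq_bd {n : ℕ} (c : Chain X (n + 1)) : boundary c = bd X n c := by
  unfold boundary bd
  rw [Finsupp.linearCombination_apply]
  refine Finsupp.sum_congr fun σ _ => ?_
  rw [Finset.smul_sum]
  refine Finset.sum_congr rfl fun i _ => ?_
  rw [Finsupp.smul_single, smul_eq_mul, mul_comm]

lemma bd_single {n : ℕ} (σ : C(stdSimplex ℝ (Fin (n + 1 + 1)), X)) (a : ℝ) :
    bd X n (Finsupp.single σ a) = ∑ i : Fin (n + 2),
      Finsupp.single (σ.comp (simplexMap i.succAbove)) ((-1) ^ (i : ℕ) * a) := by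
  unfold bd
  rw [Finsupp.linearCombination_single, Finset.smul_sum]
  refine Finset.sum_congr rfl fun i _ => ?_
  rw [Finsupp.smul_single, smul_eq_mul, mul_comm]

/-- Boundaries. -/
noncomputable def Bd (X : Type) [TopologicalSpace X] (n : ℕ) : Submodule ℝ (Chain X n) :=
  LinearMap.range (bd X n)

lemma bd_mem {n : ℕ} (c : Chain X (n + 1)) : bd X n c ∈ Bd X n := ⟨c, rfl⟩

/-- Pushforward of chains. -/
noncomputable def push (f : C(X, Y)) (n : ℕ) : Chain X n →ₗ[ℝ] Chain Y n :=
  Finsupp.lmapDomain ℝ ℝ fun σ => f.comp σ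

lemma push_single (f : C(X, Y)) {n : ℕ} (σ : C(stdSimplex ℝ (Fin (n + 1)), X)) (a : ℝ) :
    push f n (Finsupp.single σ a) = Finsupp.single (f.comp σ) a := by
  simp [push, Finsupp.mapDomain_single]

lemma push_bd (f : C(X, Y)) {n : ℕ} (c : Chain X (n + 1)) :
    push f n (bd X n c) = bd Y n (push f (n + 1) c) := by
  induction c using Finsupp.induction_linear with
  | zero => simp
  | add c c' h h' => simp only [map_add, h, h']
  | single σ a =>
    rw [bd_single, push_single, bd_single, map_sum]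
    refine Finset.sum_congr rfl fun i _ => ?_
    rw [push_single]
    rfl

lemma push_mem (f : C(X, Y)) {n : ℕ} {c : Chain X n} (h : c ∈ Bd X n) : push f n c ∈ Bd Y n := by
  obtain ⟨b, rfl⟩ := h
  rw [push_bd]
  exact bd_mem _

lemma push_push_symm (f : X ≃ₜ Y) {n : ℕ} (c : Chain Y n) :
    push (f : C(X, Y)) n (push (f.symm : C(Y, X)) n c) = c := by
  induction c using Finsupp.induction_linear with
  | zero => simp
  | add c c' h h' => simp only [map_add, h, h']
  | single σ a =>
    rw [push_single, push_single]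
    congr 1
    ext x
    simp

lemma push_symm_push (f : X ≃ₜ Y) {n : ℕ} (c : Chain X n) :
    push (f.symm : C(Y, X)) n (push (f : C(X, Y)) n c) = c := by
  induction c using Finsupp.induction_linear with
  | zero => simp
  | add c c' h h' => simp only [map_add, h, h']
  | single σ a =>
    rw [push_single, push_single]
    congr 1
    ext x
    simp

lemma ellOne_nonneg {n : ℕ} (c : Chain X n) : 0 ≤ ellOne c :=
  Finset.sum_nonneg fun _ _ => abs_nonneg _

lemma ellOne_add_le {n : ℕ} (c c' : Chain X n) : ellOne (c + c') ≤ ellOne c + ellOne c' := by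
  classical
  unfold ellOne
  rw [Finsupp.sum_of_support_subset c Finset.subset_union_left _ (by simp),
    Finsupp.sum_of_support_subset c' Finset.subset_union_right _ (by simp),
    Finsupp.sum_of_support_subset (c + c') Finsupp.support_add _ (by simp),
    ← Finset.sum_add_distrib]
  exact Finset.sum_le_sum fun σ _ => abs_add_le _ _

lemma ellOne_zero {n : ℕ} : ellOne (0 : Chain X n) = 0 := by simp [ellOne]

lemma ellOne_single {n : ℕ} (σ : C(stdSimplex ℝ (Fin (n + 1)), X)) (a : ℝ) :
    ellOne (Finsupp.single σ a) = |a| := by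
  simp [ellOne]

lemma ellOne_sum_le {n : ℕ} {α : Type} (s : Finset α) (f : α → Chain X n) :
    ellOne (∑ i ∈ s, f i) ≤ ∑ i ∈ s, ellOne (f i) := by
  classical
  induction s using Finset.induction_on with
  | empty => simp [ellOne_zero]
  | insert a s ha ih =>
    rw [Finset.sum_insert ha, Finset.sum_insert ha]
    exact (ellOne_add_le _ _).trans (by linarith)

lemma ellOne_smul {n : ℕ} (r : ℝ) (c : Chain X n) : ellOne (r • c) ≤ |r| * ellOne c := by
  unfold ellOne
  rw [Finsupp.sum_of_support_subset (r • c) Finsupp.support_smul _ (by simp), Finsupp.sum,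
    Finset.mul_sum]
  refine Finset.sum_le_sum fun σ _ => ?_
  rw [Finsupp.smul_apply, smul_eq_mul, abs_mul]

lemma ellOne_push_le (f : C(X, Y)) {n : ℕ} (c : Chain X n) : ellOne (push f n c) ≤ ellOne c := by
  classical
  have h : push f n c = ∑ σ ∈ c.support, Finsupp.single (f.comp σ) (c σ) := by
    conv_lhs => rw [← Finsupp.sum_single c]
    rw [Finsupp.sum, map_sum]
    exact Finset.sum_congr rfl fun σ _ => push_single _ _ _
  rw [h]
  refine (ellOne_sum_le _ _).trans ?_
  simp only [ellOne_single]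
  exact le_rfl

end General

lemma simplexMap_comp {l m n : ℕ} (v : Fin m → Fin n) (w : Fin l → Fin m) :
    (simplexMap v).comp (simplexMap w) = simplexMap (v ∘ w) := by
  ext1 p
  exact stdSimplex.map_comp_apply w v p

lemma simplexMap_apply {m n : ℕ} (v : Fin m → Fin n) (p : stdSimplex ℝ (Fin m)) (k : Fin n) :
    simplexMap v p k = ∑ i with v i = k, p i := by
  change FunOnFinite.linearMap ℝ ℝ v p k = _
  rw [FunOnFinite.linearMap_apply_apply]

/-! ### The fundamental cycle of the cross-polytope -/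

/-- The singular simplex in the tetrahedron `ε` with the vertices `v`. -/
noncomputable def tau {n : ℕ} (ε : Fin 4 → ℤˣ) (v : Fin (n + 1) → Fin 4) :
    C(stdSimplex ℝ (Fin (n + 1)), cross.Space) :=
  (cross.cell ε).comp (simplexMap v)

lemma tau_face {m n : ℕ} (ε : Fin 4 → ℤˣ) (v : Fin (n + 1) → Fin 4) (w : Fin (m + 1) → Fin (n + 1)) :
    (tau ε v).comp (simplexMap w) = tau ε (v ∘ w) := by
  unfold tau
  rw [ContinuousMap.comp_assoc, simplexMap_comp]

lemma tau_flip {n : ℕ} (ε : Fin 4 → ℤˣ) (v : Fin (n + 1) → Fin 4) (k : Fin 4)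
    (hk : ∀ i, v i ≠ k) : tau (flip k ε) v = tau ε v := by
  ext1 p
  apply Eq.symm
  apply Quot.sound
  refine ⟨k, ?_, ?_⟩
  · rw [simplexMap_apply]
    apply Finset.sum_eq_zero
    intro i hi
    exact absurd (Finset.mem_filter.mp hi).2 (hk i)
  · simp only [cross]
    rw [simplexMap_one]

/-- The sign of a tetrahedron. -/
noncomputable def sg (ε : Fin 4 → ℤˣ) : ℝ := (((∏ k, ε k : ℤˣ) : ℤ) : ℝ)

lemma sg_flip (k : Fin 4) (ε : Fin 4 → ℤˣ) : sg (flip k ε) = -sg ε := by
  unfold sg; rw [prod_flip]; simp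

/-- The signed sum over all tetrahedra. -/
noncomputable def cyc {n : ℕ} (v : Fin (n + 1) → Fin 4) : Chain cross.Space n :=
  ∑ ε : Fin 4 → ℤˣ, Finsupp.single (tau ε v) (sg ε)

/-- Changing the sign of a coordinate is a permutation of the tetrahedra. -/
def flipEquiv (k : Fin 4) : (Fin 4 → ℤˣ) ≃ (Fin 4 → ℤˣ) where
  toFun := flip k
  invFun := flip k
  left_inv := flip_flip k
  right_inv := flip_flip k

lemma cyc_eq_zero {n : ℕ} (v : Fin (n + 1) → Fin 4) (k : Fin 4) (hk : ∀ i, v i ≠ k) :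
    cyc v = 0 := by
  have h1 : cyc v = -cyc v := by
    conv_lhs => unfold cyc
    rw [← Equiv.sum_comp (flipEquiv k)]
    unfold cyc
    rw [← Finset.sum_neg_distrib]
    refine Finset.sum_congr rfl fun ε _ => ?_
    change Finsupp.single (tau (flip k ε) v) (sg (flip k ε)) = _
    rw [tau_flip ε v k hk, sg_flip, Finsupp.single_neg]
  have h2 : (2 : ℝ) • cyc v = 0 := by
    rw [two_smul]
    nth_rewrite 1 [h1]
    simp
  exact (smul_eq_zero.mp h2).resolve_left (by norm_num)

lemma bd_cyc {n : ℕ} (v : Fin (n + 1 + 1) → Fin 4) :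
    bd cross.Space n (cyc v) = ∑ i : Fin (n + 2), ((-1 : ℝ) ^ (i : ℕ)) • cyc (v ∘ i.succAbove) := by
  unfold cyc
  rw [map_sum]
  simp only [bd_single, Finset.smul_sum, tau_face, Finsupp.smul_single, smul_eq_mul]
  rw [Finset.sum_comm]

/-- Adjacent transpositions change the sign of the cycle up to boundaries. -/
lemma cyc_swap (π : Equiv.Perm (Fin 4)) (i : Fin 3) :
    cyc (⇑(π * Equiv.swap i.castSucc i.succ)) + cyc ⇑π ∈ Bd cross.Space 3 := by
  have key : ∀ w : Fin 5 → Fin 4, ∀ j : Fin 5, ∀ k : Fin 4, (∀ l, w (j.succAbove l) ≠ k) →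
      cyc ((⇑π ∘ w) ∘ j.succAbove) = 0 := by
    intro w j k h
    refine cyc_eq_zero _ (π k) fun l hl => h l ?_
    exact π.injective hl
  fin_cases i
  · have h := bd_mem (cyc (n := 4) (⇑π ∘ ![0, 1, 0, 2, 3]))
    rw [bd_cyc, Fin.sum_univ_five, key _ 1 1 (by decide), key _ 3 2 (by decide),
      key _ 4 3 (by decide)] at h
    have e0 : (⇑π ∘ ![0, 1, 0, 2, 3]) ∘ (0 : Fin 5).succAbove =
        ⇑(π * Equiv.swap (Fin.castSucc (0 : Fin 3)) (Fin.succ 0)) := by
      funext l; fin_cases l <;> rfl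
    have e2 : (⇑π ∘ ![0, 1, 0, 2, 3]) ∘ (2 : Fin 5).succAbove = ⇑π := by
      funext l; fin_cases l <;> rfl
    rw [e0, e2] at h
    simpa using h
  · have h := bd_mem (cyc (n := 4) (⇑π ∘ ![0, 1, 2, 1, 3]))
    rw [bd_cyc, Fin.sum_univ_five, key _ 0 0 (by decide), key _ 2 2 (by decide),
      key _ 4 3 (by decide)] at h
    have e0 : (⇑π ∘ ![0, 1, 2, 1, 3]) ∘ (1 : Fin 5).succAbove =
        ⇑(π * Equiv.swap (Fin.castSucc (1 : Fin 3)) (Fin.succ 1)) := by
      funext l; fin_cases l <;> rfl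
    have e2 : (⇑π ∘ ![0, 1, 2, 1, 3]) ∘ (3 : Fin 5).succAbove = ⇑π := by
      funext l; fin_cases l <;> rfl
    rw [e0, e2] at h
    have h2 := (Bd cross.Space 3).neg_mem h
    have p3 : ((-1 : ℝ) ^ 3) = -1 := by norm_num
    simpa [p3, add_comm] using h2
  · have h := bd_mem (cyc (n := 4) (⇑π ∘ ![0, 1, 2, 3, 2]))
    rw [bd_cyc, Fin.sum_univ_five, key _ 0 0 (by decide), key _ 1 1 (by decide),
      key _ 3 3 (by decide)] at h
    have e0 : (⇑π ∘ ![0, 1, 2, 3, 2]) ∘ (2 : Fin 5).succAbove =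
        ⇑(π * Equiv.swap (Fin.castSucc (2 : Fin 3)) (Fin.succ 2)) := by
      funext l; fin_cases l <;> rfl
    have e2 : (⇑π ∘ ![0, 1, 2, 3, 2]) ∘ (4 : Fin 5).succAbove = ⇑π := by
      funext l; fin_cases l <;> rfl
    rw [e0, e2] at h
    have p4 : ((-1 : ℝ) ^ 4) = 1 := by norm_num
    simpa [p4] using h

/-- All orderings of the vertices give homologous cycles. -/
lemma cyc_perm (π : Equiv.Perm (Fin 4)) :
    ((Equiv.Perm.sign π : ℤ) : ℝ) • cyc ⇑π - cyc ⇑(1 : Equiv.Perm (Fin 4)) ∈
      Bd cross.Space 3 := by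
  have hπ : π ∈ Submonoid.closure (Set.range fun i : Fin 3 => Equiv.swap i.castSucc i.succ) := by
    rw [Equiv.Perm.mclosure_swap_castSucc_succ]; exact Submonoid.mem_top π
  induction hπ using Submonoid.closure_induction_right with
  | one => simp
  | mul_right x hx y hy ih =>
    obtain ⟨i, rfl⟩ := hy
    have h := (Bd cross.Space 3).smul_mem ((Equiv.Perm.sign x : ℤ) : ℝ) (cyc_swap x i)
    have h2 := (Bd cross.Space 3).sub_mem ih h
    have hs : Equiv.Perm.sign (Equiv.swap i.castSucc i.succ) = -1 :=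
      Equiv.Perm.sign_swap (Fin.castSucc_lt_succ).ne
    simp only [map_mul, hs]
    convert h2 using 1
    push_cast
    module

/-- The fundamental cycle is homologous to the signed sum of the tetrahedra. -/
lemma fundamentalCycle_sub :
    cross.fundamentalCycle - cyc ⇑(1 : Equiv.Perm (Fin 4)) ∈ Bd cross.Space 3 := by
  have h1 : cross.fundamentalCycle = ∑ π : Equiv.Perm (Fin 4),
      (1 / 24 : ℝ) • (((Equiv.Perm.sign π : ℤ) : ℝ) • cyc ⇑π) := by
    unfold Triangulation.fundamentalCycle cyc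
    rw [Finset.sum_comm]
    refine Finset.sum_congr rfl fun π _ => ?_
    rw [Finset.smul_sum, Finset.smul_sum]
    refine Finset.sum_congr rfl fun ε _ => ?_
    rw [Finsupp.smul_single, Finsupp.smul_single]
    congr 1
    simp only [smul_eq_mul, sg, cross]
    ring
  have h2 : cyc ⇑(1 : Equiv.Perm (Fin 4)) = ∑ _π : Equiv.Perm (Fin 4),
      (1 / 24 : ℝ) • cyc (⇑(1 : Equiv.Perm (Fin 4))) := by
    rw [Finset.sum_const, Finset.card_univ, Fintype.card_perm, Fintype.card_fin,
      ← Nat.cast_smul_eq_nsmul ℝ, smul_smul]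
    norm_num [Nat.factorial]
  rw [h1, h2, ← Finset.sum_sub_distrib]
  refine Submodule.sum_mem _ fun π _ => ?_
  rw [← smul_sub]
  exact Submodule.smul_mem _ _ (cyc_perm π)

end Pool.Agent.GenShape
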