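import Pool.Agent.GenShape.Defs

/-!
The boundary of the 4-dimensional cross-polytope as a triangulation of the 3-sphere.
-/

namespace Pool.Agent.GenShape

/-- Change the sign of the coordinate `k`. -/
def flip (k : Fin 4) (ε : Fin 4 → ℤˣ) : Fin 4 → ℤˣ := Function.update ε k (-ε k)

lemma flip_same (k : Fin 4) (ε : Fin 4 → ℤˣ) : flip k ε k = -ε k := by simp [flip]

lemma flip_ne {k l : Fin 4} (h : l ≠ k) (ε : Fin 4 → ℤˣ) : flip k ε l = ε l := by simp [flip, h]

lemma flip_flip (k : Fin 4) (ε : Fin 4 → ℤˣ) : flip k (flip k ε) = ε := by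
  ext l
  by_cases h : l = k
  · subst h; simp [flip_same]
  · simp [flip_ne h]

lemma prod_flip (k : Fin 4) (ε : Fin 4 → ℤˣ) : ∏ l, flip k ε l = -∏ l, ε l := by
  fin_cases k <;> simp [flip, Fin.prod_univ_four, Function.update]

/-- The boundary of the cross-polytope: the tetrahedron `ε` has the vertices `ε k • e k`. -/
def cross : Triangulation (Fin 4 → ℤˣ) where
  orient ε := ∏ k, ε k
  glue ε f := flip f ε
  perm _ _ := 1
  glue_glue ε f := by simp [flip_flip]
  perm_glue ε f := by simp
  ne_self ε f := by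
    left
    intro h
    have := congrFun h f
    rw [flip_same] at this
    exact (Int.units_ne_iff_eq_neg.mpr rfl) this
  reverses ε f := by rw [prod_flip]; simp


/-! ### The quotient space -/

/-- The unit sphere of the `ℓ¹`-norm. -/
def L1Sphere : Type := {x : Fin 4 → ℝ // ∑ k, |x k| = 1}

instance : TopologicalSpace L1Sphere :=
  inferInstanceAs (TopologicalSpace {x : Fin 4 → ℝ // ∑ k, |x k| = 1})

instance : T2Space L1Sphere :=
  inferInstanceAs (T2Space {x : Fin 4 → ℝ // ∑ k, |x k| = 1})

lemma abs_unit_mul (u : ℤˣ) (r : ℝ) : |((u : ℤ) : ℝ) * r| = |r| := by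
  rcases Int.units_eq_one_or u with h | h <;> simp [h]

lemma simplexMap_one (p : stdSimplex ℝ (Fin 4)) :
    simplexMap (⇑(1 : Equiv.Perm (Fin 4))) p = p := by
  simp only [simplexMap, ContinuousMap.coe_mk]
  exact stdSimplex.map_id_apply p

/-- The realization of the tetrahedron `ε`. -/
noncomputable def realize (x : (_ : Fin 4 → ℤˣ) × stdSimplex ℝ (Fin 4)) : L1Sphere :=
  ⟨fun k => ((x.1 k : ℤ) : ℝ) * x.2 k, by
    simp only [abs_unit_mul]
    have h : ∀ k, |x.2 k| = x.2 k := fun k => abs_of_nonneg (stdSimplex.zero_le x.2 k)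
    simp only [h]
    exact stdSimplex.sum_eq_one x.2⟩

lemma realize_val (x : (_ : Fin 4 → ℤˣ) × stdSimplex ℝ (Fin 4)) (k : Fin 4) :
    (realize x).1 k = ((x.1 k : ℤ) : ℝ) * x.2 k := rfl

lemma realize_glued {x y : (_ : Fin 4 → ℤˣ) × stdSimplex ℝ (Fin 4)} (h : cross.Glued x y) :
    realize x = realize y := by
  obtain ⟨f, hf, rfl⟩ := h
  apply Subtype.ext
  funext k
  simp only [realize_val, cross, simplexMap_one]
  by_cases hk : k = f
  · subst hk; rw [hf]; simp
  · rw [flip_ne hk]

/-- The map from the quotient to the sphere. -/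
noncomputable def toL1 : cross.Space → L1Sphere := Quot.lift realize fun _ _ h => realize_glued h

lemma continuous_realize : Continuous realize := by
  apply Continuous.subtype_mk
  refine continuous_sigma fun ε => ?_
  refine continuous_pi fun k => ?_
  have h : Continuous fun p : stdSimplex ℝ (Fin 4) => p.1 k :=
    (continuous_apply (A := fun _ : Fin 4 => ℝ) k).comp continuous_subtype_val
  exact (continuous_const_mul ((ε k : ℤ) : ℝ)).comp h

lemma continuous_toL1 : Continuous toL1 := continuous_quot_lift _ continuous_realize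

lemma mk_piecewise (ε ε' : Fin 4 → ℤˣ) (p : stdSimplex ℝ (Fin 4)) (s : Finset (Fin 4))
    (hs : ∀ k ∈ s, p k = 0) :
    Quot.mk cross.Glued ⟨ε, p⟩ = Quot.mk cross.Glued ⟨s.piecewise ε' ε, p⟩ := by
  induction s using Finset.induction_on with
  | empty => simp
  | insert k s hk ih =>
    rw [ih fun l hl => hs l (Finset.mem_insert_of_mem hl), Finset.piecewise_insert]
    by_cases h : (s.piecewise ε' ε) k = ε' k
    · rw [← h, Function.update_eq_self]
    · apply Quot.sound
      refine ⟨k, hs k (Finset.mem_insert_self k s), ?_⟩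
      have h2 : Function.update (s.piecewise ε' ε) k (ε' k) = flip k (s.piecewise ε' ε) := by
        unfold flip
        rw [Int.units_ne_iff_eq_neg.mp h, neg_neg]
      simp only [cross, simplexMap_one, h2]

lemma toL1_injective : Function.Injective toL1 := by
  rintro ⟨ε, p⟩ ⟨ε', p'⟩ h
  have h1 : ∀ k, ((ε k : ℤ) : ℝ) * p k = ((ε' k : ℤ) : ℝ) * p' k := fun k =>
    congrFun (congrArg Subtype.val h) k
  have h2 : p = p' := by
    apply stdSimplex.ext
    funext k
    have := congrArg abs (h1 k)
    rwa [abs_unit_mul, abs_unit_mul, abs_of_nonneg (stdSimplex.zero_le p k),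
      abs_of_nonneg (stdSimplex.zero_le p' k)] at this
  subst h2
  have h3 : ∀ k, ε k ≠ ε' k → p k = 0 := by
    intro k hk
    have := h1 k
    rw [Int.units_ne_iff_eq_neg.mp hk] at this
    rcases Int.units_eq_one_or (ε' k) with h | h <;> rw [h] at this <;> push_cast at this <;>
      linarith
  have h4 := mk_piecewise ε ε' p (Finset.univ.filter fun k => ε k ≠ ε' k)
    (fun k hk => h3 k (Finset.mem_filter.mp hk).2)
  have h5 : (Finset.univ.filter fun k => ε k ≠ ε' k).piecewise ε' ε = ε' := by
    funext k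
    by_cases hk : ε k = ε' k
    · rw [Finset.piecewise_eq_of_notMem _ _ _ (by simp [hk])]; exact hk
    · rw [Finset.piecewise_eq_of_mem _ _ _ (by simp [hk])]
  rw [h5] at h4
  exact h4

lemma toL1_surjective : Function.Surjective toL1 := by
  intro x
  refine ⟨Quot.mk _ ⟨fun k => if 0 ≤ x.1 k then 1 else -1,
    ⟨fun k => |x.1 k|, fun k => abs_nonneg _, x.2⟩⟩, ?_⟩
  apply Subtype.ext
  funext k
  change (((if 0 ≤ x.1 k then (1 : ℤˣ) else -1 : ℤˣ) : ℤ) : ℝ) * |x.1 k| = x.1 k
  by_cases h : 0 ≤ x.1 k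
  · simp [h, abs_of_nonneg h]
  · simp [h, abs_of_neg (not_le.mp h)]

instance : CompactSpace cross.Space :=
  inferInstanceAs (CompactSpace (Quot cross.Glued))

/-- The quotient is homeomorphic to the `ℓ¹`-sphere. -/
noncomputable def homeoL1 : cross.Space ≃ₜ L1Sphere :=
  Continuous.homeoOfEquivCompactToT2 (f := Equiv.ofBijective toL1 ⟨toL1_injective, toL1_surjective⟩)
    continuous_toL1

lemma homeoL1_cell (ε : Fin 4 → ℤˣ) (p : stdSimplex ℝ (Fin 4)) :
    homeoL1 (cross.cell ε p) = realize ⟨ε, p⟩ := rfl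

end Pool.Agent.GenShape
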