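import Mathlib

/-!
Generalized shape parameters on triangulated closed 3-manifolds: basic definitions.
-/

namespace Pool.Agent.GenShape

/-- An oriented face-pairing of a family of tetrahedra indexed by `ι`. The vertices of each
tetrahedron are labelled by `Fin 4`, and the face `f` is the one opposite to the vertex `f`.
`orient t` is `1` if the order `0, 1, 2, 3` of the vertices of the tetrahedron `t` is positive for
the orientation of `t`, and `-1` otherwise. The face `f` of `t` is glued to the face `perm t f f`
of `glue t f` by the affine map that carries the vertex `v ≠ f` to the vertex `perm t f v`. The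
faces are glued in pairs (first three conditions) and the gluing maps reverse the orientation. -/
structure Triangulation (ι : Type) where
  orient : ι → ℤˣ
  glue : ι → Fin 4 → ι
  perm : ι → Fin 4 → Equiv.Perm (Fin 4)
  glue_glue : ∀ t f, glue (glue t f) (perm t f f) = t
  perm_glue : ∀ t f, perm (glue t f) (perm t f f) = (perm t f)⁻¹
  ne_self : ∀ t f, glue t f ≠ t ∨ perm t f f ≠ f
  reverses : ∀ t f, orient (glue t f) * Equiv.Perm.sign (perm t f) = -orient t

/-! ### Singular chains with real coefficients -/

/-- Real singular `n`-chains of a space `X`. -/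
abbrev Chain (X : Type) [TopologicalSpace X] (n : ℕ) : Type :=
  C(stdSimplex ℝ (Fin (n + 1)), X) →₀ ℝ

/-- The affine map of standard simplices that carries the vertex `i` to the vertex `v i`. -/
noncomputable def simplexMap {m n : ℕ} (v : Fin m → Fin n) :
    C(stdSimplex ℝ (Fin m), stdSimplex ℝ (Fin n)) :=
  ⟨stdSimplex.map v, stdSimplex.continuous_map v⟩

/-- The boundary of a singular chain. -/
noncomputable def boundary {X : Type} [TopologicalSpace X] {n : ℕ} (c : Chain X (n + 1)) :
    Chain X n :=
  c.sum fun σ a => ∑ i : Fin (n + 2),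
    Finsupp.single (σ.comp (simplexMap i.succAbove)) ((-1) ^ (i : ℕ) * a)

/-- The `ℓ¹`-norm of a singular chain. -/
noncomputable def ellOne {X : Type} [TopologicalSpace X] {n : ℕ} (c : Chain X n) : ℝ :=
  c.sum fun _ a => |a|

/-! ### The Lobachevsky function -/

/-- The Lobachevsky function. -/
noncomputable def lobachevsky (t : ℝ) : ℝ := -∫ s in (0 : ℝ)..t, Real.log |2 * Real.sin s|

/-- The volume of the regular ideal hyperbolic tetrahedron. -/
noncomputable def regularVolume : ℝ := 3 * lobachevsky (Real.pi / 3)

namespace Triangulation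

variable {ι : Type} (T : Triangulation ι)

/-! ### The quotient space -/

/-- A point `x` of a tetrahedron that lies in the face `f` is glued to the point `y`. -/
def Glued (x y : (_ : ι) × stdSimplex ℝ (Fin 4)) : Prop :=
  ∃ f : Fin 4, x.2 f = 0 ∧ y = ⟨T.glue x.1 f, simplexMap (T.perm x.1 f) x.2⟩

/-- The quotient space of the disjoint union of the tetrahedra. -/
def Space : Type := Quot T.Glued

instance : TopologicalSpace T.Space := inferInstanceAs (TopologicalSpace (Quot T.Glued))

/-- The characteristic map of the tetrahedron `t`. -/
noncomputable def cell (t : ι) : C(stdSimplex ℝ (Fin 4), T.Space) where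
  toFun p := Quot.mk T.Glued ⟨t, p⟩
  continuous_toFun := continuous_quot_mk.comp continuous_sigmaMk

/-! ### The Gromov norm -/

/-- The fundamental cycle of the triangulation: the sum over all tetrahedra of the oriented
tetrahedron, made independent of the ordering of its vertices by averaging over all orderings. -/
noncomputable def fundamentalCycle [Fintype ι] : Chain T.Space 3 :=
  ∑ t : ι, ∑ π : Equiv.Perm (Fin 4), Finsupp.single ((T.cell t).comp (simplexMap π))
    (((T.orient t : ℤ) : ℝ) * ((Equiv.Perm.sign π : ℤ) : ℝ) / 24)

/-- The Gromov norm (simplicial volume): the infimum of the `ℓ¹`-norms of the real singular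
chains homologous to the fundamental cycle. -/
noncomputable def gromovNorm [Fintype ι] : ℝ :=
  sInf {r : ℝ | ∃ (c : Chain T.Space 3) (b : Chain T.Space 4),
    c = T.fundamentalCycle + boundary b ∧ r = ellOne c}

/-! ### Generalized shape parameters -/

/-- The normal quadrilaterals of a tetrahedron are labelled by `q : Fin 3`: the quadrilateral `q`
separates the vertices `0` and `q.succ` from the two other ones. `IsDisjoint q a b` says that
`a ≠ b` and that the edge `ab` is disjoint from the quadrilateral `q`, i.e. the vertices `a` and
`b` lie on the same side of `q`. -/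
def IsDisjoint (q : Fin 3) (a b : Fin 4) : Prop :=
  a ≠ b ∧ ((a = 0 ∨ a = q.succ) ↔ (b = 0 ∨ b = q.succ))

/-- The cyclic order of the three quadrilaterals of `t` induced by the orientation of `t`. -/
def next (t : ι) (q : Fin 3) : Fin 3 := if T.orient t = 1 then q + 1 else q - 1

/-- `(t, a, b)` stands for the edge `ab` of the tetrahedron `t`. Elementary identifications of
edges: by the gluing of a face that contains the edge, and by reversing the edge. -/
def EdgeStep (x y : ι × Fin 4 × Fin 4) : Prop :=
  (∃ f : Fin 4, f ≠ x.2.1 ∧ f ≠ x.2.2 ∧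
    y = (T.glue x.1 f, T.perm x.1 f x.2.1, T.perm x.1 f x.2.2)) ∨ y = (x.1, x.2.2, x.2.1)

/-- Two edges of tetrahedra have the same image in the quotient. -/
def SameEdge : ι × Fin 4 × Fin 4 → ι × Fin 4 × Fin 4 → Prop := Relation.EqvGen T.EdgeStep

/-- The number `i(e,q)` where `e` is the image of the edge `x`, and `q` is a quadrilateral of the
tetrahedron `t`: the number of edges of `t` that are disjoint from `q` and map to `e`. -/
noncomputable def incidence (x : ι × Fin 4 × Fin 4) (t : ι) (q : Fin 3) : ℕ :=
  Nat.card {p : Fin 4 × Fin 4 // p.1 < p.2 ∧ IsDisjoint q p.1 p.2 ∧ T.SameEdge x (t, p.1, p.2)}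

/-- The set `W(T)` of generalized shape parameters. -/
def shapes [Fintype ι] : Set (ι → Fin 3 → ℂ) :=
  {z | (∀ t q, z t q ≠ 1 ∧ z t (T.next t q) = 1 / (1 - z t q)) ∧
    ∀ (t : ι) (a b : Fin 4), a ≠ b →
      ∃ r : ℝ, 0 < r ∧ ∏ s : ι, ∏ q : Fin 3, z s q ^ T.incidence (t, a, b) s q = (r : ℂ)}

end Triangulation

/-- The volume of a family of shape parameters. -/
noncomputable def volume {ι : Type} [Fintype ι] (z : ι → Fin 3 → ℂ) : ℝ :=
  ∑ t : ι, ∑ q : Fin 3, lobachevsky (z t q).arg

end Pool.Agent.GenShape
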