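import Pool.Agent.GenShape.Chains

/-!
Singular simplices of the `ℓ¹`-sphere of join type.
-/

namespace Pool.Agent.GenShape

/-- Triangle wave of period 4. -/
noncomputable def wave (t : ℝ) : ℝ := 1 - ‖(t : AddCircle (4 : ℝ))‖

lemma continuous_wave : Continuous wave :=
  continuous_const.sub (continuous_norm.comp (AddCircle.continuous_mk' 4))

lemma wave_add (t : ℝ) (n : ℤ) : wave (t + 4 * n) = wave t := by
  unfold wave
  congr 2
  have h : (t + 4 * n : ℝ) = t + n • (4 : ℝ) := by simp [mul_comm]
  rw [h]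
  simp

lemma wave_of_abs {t : ℝ} (h : |t| ≤ 2) : wave t = 1 - |t| := by
  unfold wave
  rw [(AddCircle.norm_coe_eq_abs_iff (p := (4 : ℝ)) (by norm_num)).mpr]
  rw [abs_of_pos (by norm_num : (0 : ℝ) < 4)]
  linarith

lemma wave_of_mem {t : ℝ} (h0 : 0 ≤ t) (h2 : t ≤ 2) : wave t = 1 - t := by
  rw [wave_of_abs (by rw [abs_of_nonneg h0]; exact h2), abs_of_nonneg h0]

lemma wave_of_mem' {t : ℝ} (h0 : 2 ≤ t) (h2 : t ≤ 4) : wave t = t - 3 := by
  have h : t = (t - 4) + 4 * (1 : ℤ) := by push_cast; ring
  rw [h, wave_add, wave_of_abs (by rw [abs_of_nonpos (by linarith)]; linarith),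
    abs_of_nonpos (by linarith)]
  ring

lemma abs_wave (t : ℝ) : |wave t| + |wave (t - 1)| = 1 := by
  obtain ⟨n, s, hs0, hs4, rfl⟩ : ∃ (n : ℤ) (s : ℝ), 0 ≤ s ∧ s < 4 ∧ t = s + 4 * n := by
    refine ⟨⌊t / 4⌋, t - 4 * ⌊t / 4⌋, ?_, ?_, by ring⟩
    · have := Int.floor_le (t / 4)
      linarith
    · have := Int.lt_floor_add_one (t / 4)
      linarith
  have h1 : s + 4 * (n : ℝ) - 1 = (s - 1) + 4 * n := by ring
  rw [h1, wave_add, wave_add]
  rcases le_total s 1 with h | h
  · rw [wave_of_mem hs0 (by linarith), wave_of_abs (by rw [abs_of_nonpos (by linarith)]; linarith),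
      abs_of_nonpos (by linarith : s - 1 ≤ 0), abs_of_nonneg (by linarith),
      abs_of_nonneg (by linarith)]
    ring
  · rcases le_total s 2 with h' | h'
    · rw [wave_of_mem hs0 h', wave_of_mem (by linarith) (by linarith),
        abs_of_nonpos (by linarith), abs_of_nonneg (by linarith)]
      ring
    · rcases le_total s 3 with h'' | h''
      · rw [wave_of_mem' h' hs4.le, wave_of_mem (by linarith) (by linarith),
          abs_of_nonpos (by linarith), abs_of_nonpos (by linarith)]
        ring
      · rw [wave_of_mem' h' hs4.le, wave_of_mem' (by linarith) (by linarith),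
          abs_of_nonneg (by linarith), abs_of_nonpos (by linarith)]
        ring

/-- Homogeneous extension. -/
noncomputable def hom (d s u : ℝ) : ℝ := s * wave (u / s - d)

lemma continuous_hom (d : ℝ) : Continuous fun p : ℝ × ℝ => hom d p.1 p.2 := by
  have hb : ∀ t, |wave t| ≤ 1 := fun t => by
    have := abs_wave t
    have := abs_nonneg (wave (t - 1))
    linarith
  rw [continuous_iff_continuousAt]
  rintro ⟨s, u⟩
  by_cases hs : s = 0
  · subst hs
    have h0 : hom d (0, u).1 (0, u).2 = 0 := by simp [hom]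
    change Filter.Tendsto (fun p : ℝ × ℝ => hom d p.1 p.2) (nhds (0, u))
      (nhds (hom d (0, u).1 (0, u).2))
    rw [h0]
    refine squeeze_zero_norm (a := fun p : ℝ × ℝ => |p.1|) (fun p => ?_) ?_
    · unfold hom
      rw [norm_mul, Real.norm_eq_abs, Real.norm_eq_abs]
      exact mul_le_of_le_one_right (abs_nonneg _) (hb _)
    · have : Filter.Tendsto (fun p : ℝ × ℝ => |p.1|) (nhds (0, u)) (nhds |(0, u).1|) :=
        (continuous_abs.comp continuous_fst).tendsto _
      simpa using this
  · have h1 : ContinuousAt (fun p : ℝ × ℝ => p.2 / p.1) (s, u) :=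
      ContinuousAt.div continuousAt_snd continuousAt_fst hs
    exact continuousAt_fst.mul ((continuous_wave.continuousAt).comp (h1.sub continuousAt_const))

lemma hom_add (d s u : ℝ) (n : ℤ) : hom d s (u + 4 * n * s) = hom d s u := by
  unfold hom
  by_cases hs : s = 0
  · simp [hs]
  · have h : (u + 4 * n * s) / s - d = (u / s - d) + 4 * n := by field_simp; ring
    rw [h, wave_add]

lemma abs_hom (s u : ℝ) : |hom 0 s u| + |hom 1 s u| = |s| := by
  unfold hom
  rw [abs_mul, abs_mul, ← mul_add, sub_zero, abs_wave, mul_one]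

/-- Weight and moment of the vertices of one type. -/
noncomputable def wt {n : ℕ} (ty : Fin n → Bool) (b : Bool) (p : stdSimplex ℝ (Fin n)) : ℝ :=
  ∑ i, p i * (if ty i = b then 1 else 0)

/-- Moment of the vertices of one type. -/
noncomputable def mom {n : ℕ} (ty : Fin n → Bool) (pa : Fin n → ℝ) (b : Bool)
    (p : stdSimplex ℝ (Fin n)) : ℝ :=
  ∑ i, p i * (if ty i = b then pa i else 0)

lemma wt_nonneg {n : ℕ} (ty : Fin n → Bool) (b : Bool) (p : stdSimplex ℝ (Fin n)) :
    0 ≤ wt ty b p := by
  refine Finset.sum_nonneg fun i _ => mul_nonneg (stdSimplex.zero_le p i) ?_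
  split_ifs <;> norm_num

lemma wt_add {n : ℕ} (ty : Fin n → Bool) (p : stdSimplex ℝ (Fin n)) :
    wt ty false p + wt ty true p = 1 := by
  unfold wt
  rw [← Finset.sum_add_distrib, ← stdSimplex.sum_eq_one p]
  refine Finset.sum_congr rfl fun i _ => ?_
  cases ty i <;> simp

lemma continuous_eval {n : ℕ} (i : Fin n) : Continuous fun p : stdSimplex ℝ (Fin n) => p i :=
  (continuous_apply (A := fun _ : Fin n => ℝ) i).comp continuous_subtype_val

lemma continuous_wt {n : ℕ} (ty : Fin n → Bool) (b : Bool) : Continuous (wt ty b) :=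
  continuous_finsetSum _ fun i _ => (continuous_mul_const _).comp (continuous_eval i)

lemma continuous_mom {n : ℕ} (ty : Fin n → Bool) (pa : Fin n → ℝ) (b : Bool) :
    Continuous (mom ty pa b) :=
  continuous_finsetSum _ fun i _ => (continuous_mul_const _).comp (continuous_eval i)

/-- The singular simplex of the `ℓ¹`-sphere with vertices of two types. -/
noncomputable def phi {n : ℕ} (ty : Fin n → Bool) (pa : Fin n → ℝ) :
    C(stdSimplex ℝ (Fin n), L1Sphere) where
  toFun p := ⟨![hom 0 (wt ty false p) (mom ty pa false p), hom 1 (wt ty false p) (mom ty pa false p),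
    hom 0 (wt ty true p) (mom ty pa true p), hom 1 (wt ty true p) (mom ty pa true p)], by
    rw [Fin.sum_univ_four]
    simp only [Matrix.cons_val]
    rw [abs_hom, add_assoc, abs_hom, abs_of_nonneg (wt_nonneg _ _ _),
      abs_of_nonneg (wt_nonneg _ _ _), wt_add]⟩
  continuous_toFun := by
    have h : ∀ d b, Continuous fun p => hom d (wt ty b p) (mom ty pa b p) := fun d b =>
      (continuous_hom d).comp ((continuous_wt ty b).prodMk (continuous_mom ty pa b))
    apply Continuous.subtype_mk
    refine continuous_pi fun k => ?_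
    fin_cases k
    · exact h 0 false
    · exact h 1 false
    · exact h 0 true
    · exact h 1 true

lemma phi_val {n : ℕ} (ty : Fin n → Bool) (pa : Fin n → ℝ) (p : stdSimplex ℝ (Fin n)) :
    (phi ty pa p).1 =
      ![hom 0 (wt ty false p) (mom ty pa false p), hom 1 (wt ty false p) (mom ty pa false p),
        hom 0 (wt ty true p) (mom ty pa true p), hom 1 (wt ty true p) (mom ty pa true p)] := rfl

lemma sum_simplexMap {m n : ℕ} (v : Fin m → Fin n) (p : stdSimplex ℝ (Fin m)) (f : Fin n → ℝ) :
    ∑ k, simplexMap v p k * f k = ∑ i, p i * f (v i) := by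
  simp only [simplexMap_apply, Finset.sum_mul]
  rw [Finset.sum_comm' (t' := Finset.univ) (s' := fun i => {v i}) (by simp [eq_comm])]
  simp

lemma phi_comp {m n : ℕ} (ty : Fin n → Bool) (pa : Fin n → ℝ) (v : Fin m → Fin n) :
    (phi ty pa).comp (simplexMap v) = phi (ty ∘ v) (pa ∘ v) := by
  have h1 : ∀ b p, wt ty b (simplexMap v p) = wt (ty ∘ v) b p := fun b p => by
    unfold wt
    rw [sum_simplexMap]
    rfl
  have h2 : ∀ b p, mom ty pa b (simplexMap v p) = mom (ty ∘ v) (pa ∘ v) b p := fun b p => by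
    unfold mom
    rw [sum_simplexMap]
    rfl
  ext1 p
  apply Subtype.ext
  rw [ContinuousMap.comp_apply, phi_val, phi_val, h1, h1, h2, h2]

lemma phi_shift {n : ℕ} (ty : Fin n → Bool) (pa : Fin n → ℝ) (k : Bool → ℤ) :
    phi ty (fun i => pa i + 4 * k (ty i)) = phi ty pa := by
  have h : ∀ b p, mom ty (fun i => pa i + 4 * k (ty i)) b p =
      mom ty pa b p + 4 * k b * wt ty b p := fun b p => by
    unfold mom wt
    rw [Finset.mul_sum, ← Finset.sum_add_distrib]
    refine Finset.sum_congr rfl fun i _ => ?_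
    by_cases hb : ty i = b
    · subst hb; simp only [if_true]; ring
    · rw [if_neg hb, if_neg hb, if_neg hb]; ring
  ext1 p
  apply Subtype.ext
  rw [phi_val, phi_val, h, h, hom_add, hom_add, hom_add, hom_add]

end Pool.Agent.GenShape
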