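import Pool.Agent.GenShape.Join

/-!
The Gromov norm of the cross-polytope triangulation of the 3-sphere is zero.
-/

namespace Pool.Agent.GenShape

/-- Join of two paths. -/
noncomputable def q (a b c d : ℝ) : C(stdSimplex ℝ (Fin 4), L1Sphere) :=
  phi ![false, false, true, true] ![a, b, c, d]

/-- Join of a triangle and a path. -/
noncomputable def r (a b c d e : ℝ) : C(stdSimplex ℝ (Fin 5), L1Sphere) :=
  phi ![false, false, false, true, true] ![a, b, c, d, e]

/-- Join of a triangle and a point. -/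
noncomputable def w (a b c d : ℝ) : C(stdSimplex ℝ (Fin 4), L1Sphere) :=
  phi ![false, false, false, true] ![a, b, c, d]

lemma w_four (a b c : ℝ) : w a b c 4 = w a b c 0 := by
  have h := phi_shift ![false, false, false, true] ![a, b, c, 0] (fun x => if x then 1 else 0)
  unfold w
  rw [← h]
  congr 1
  funext i
  fin_cases i <;> simp

lemma q_shift (a b c d : ℝ) (n : ℤ) : q (a + 4 * n) (b + 4 * n) c d = q a b c d := by
  have h := phi_shift ![false, false, true, true] ![a, b, c, d] (fun x => if x then 0 else n)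
  unfold q
  rw [← h]
  congr 1
  funext i
  fin_cases i <;> simp

lemma bd_r (a b c d e : ℝ) (x : ℝ) :
    bd L1Sphere 3 (Finsupp.single (r a b c d e) x) =
      Finsupp.single (q b c d e) x - Finsupp.single (q a c d e) x + Finsupp.single (q a b d e) x
        - Finsupp.single (w a b c e) x + Finsupp.single (w a b c d) x := by
  have h0 : (r a b c d e).comp (simplexMap (0 : Fin 5).succAbove) = q b c d e := by
    unfold r q
    rw [phi_comp]
    congr 1 <;> (funext i; fin_cases i <;> rfl)
  have h1 : (r a b c d e).comp (simplexMap (1 : Fin 5).succAbove) = q a c d e := by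
    unfold r q
    rw [phi_comp]
    congr 1 <;> (funext i; fin_cases i <;> rfl)
  have h2 : (r a b c d e).comp (simplexMap (2 : Fin 5).succAbove) = q a b d e := by
    unfold r q
    rw [phi_comp]
    congr 1 <;> (funext i; fin_cases i <;> rfl)
  have h3 : (r a b c d e).comp (simplexMap (3 : Fin 5).succAbove) = w a b c e := by
    unfold r w
    rw [phi_comp]
    congr 1 <;> (funext i; fin_cases i <;> rfl)
  have h4 : (r a b c d e).comp (simplexMap (4 : Fin 5).succAbove) = w a b c d := by
    unfold r w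
    rw [phi_comp]
    congr 1 <;> (funext i; fin_cases i <;> rfl)
  have p0 : ((-1 : ℝ) ^ ((0 : Fin 5) : ℕ)) = 1 := by norm_num
  have p1 : ((-1 : ℝ) ^ ((1 : Fin 5) : ℕ)) = -1 := by norm_num
  have p3 : ((-1 : ℝ) ^ ((3 : Fin 5) : ℕ)) = -1 := by norm_num
  have p4 : ((-1 : ℝ) ^ ((4 : Fin 5) : ℕ)) = 1 := by norm_num
  have p2 : ((-1 : ℝ) ^ ((2 : Fin 5) : ℕ)) = 1 := by norm_num
  rw [bd_single, Fin.sum_univ_five, h0, h1, h2, h3, h4, p0, p1, p2, p3, p4]
  simp only [one_mul, neg_mul, Finsupp.single_neg]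
  abel

/-- The cycle of type path times second circle. -/
noncomputable def BB (a b : ℝ) : Chain L1Sphere 3 :=
  Finsupp.single (q a b 0 1) 1 - Finsupp.single (q a b 2 1) 1 + Finsupp.single (q a b 2 3) 1
    - Finsupp.single (q a b 4 3) 1

/-- The chain of type triangle times second circle. -/
noncomputable def DD (a b c : ℝ) : Chain L1Sphere 4 :=
  Finsupp.single (r a b c 0 1) 1 - Finsupp.single (r a b c 2 1) 1 + Finsupp.single (r a b c 2 3) 1
    - Finsupp.single (r a b c 4 3) 1

lemma bd_DD (a b c : ℝ) : bd L1Sphere 3 (DD a b c) = BB b c - BB a c + BB a b := by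
  unfold DD BB
  simp only [map_sub, map_add, bd_r, w_four]
  abel

lemma BB_mem (a b c : ℝ) : BB b c - BB a c + BB a b ∈ Bd L1Sphere 3 := by
  rw [← bd_DD]; exact bd_mem _

lemma BB_shift (a b : ℝ) (n : ℤ) : BB (a + 4 * n) (b + 4 * n) = BB a b := by
  unfold BB; simp only [q_shift]

lemma BB_mul (n : ℕ) : BB 0 (4 * n) - (n : ℝ) • BB 0 4 ∈ Bd L1Sphere 3 := by
  induction n with
  | zero =>
    have h := BB_mem 0 0 0
    simpa using h
  | succ n ih =>
    have h := BB_mem 0 (4 * n) (4 * n + 4)
    have h2 : BB (4 * n) (4 * n + 4) = BB 0 4 := by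
      have := BB_shift 0 4 n
      rw [← this]
      push_cast
      congr 1 <;> ring
    rw [h2] at h
    have h3 := (Bd L1Sphere 3).sub_mem ih h
    convert h3 using 1
    push_cast
    rw [show (4 : ℝ) * (n + 1) = 4 * n + 4 by ring]
    module

lemma BB_sum_mem : BB 0 1 - BB 2 1 + BB 2 3 - BB 4 3 - BB 0 4 ∈ Bd L1Sphere 3 := by
  have h1 := BB_mem 0 1 4
  have h2 := BB_mem 2 1 4
  have h3 := BB_mem 2 4 3
  have h4 := (Bd L1Sphere 3).sub_mem ((Bd L1Sphere 3).sub_mem h1 h2) h3
  convert h4 using 1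
  abel

lemma ellOne_BB (a b : ℝ) : ellOne (BB a b) ≤ 4 := by
  unfold BB
  rw [sub_eq_add_neg, sub_eq_add_neg, ← Finsupp.single_neg, ← Finsupp.single_neg]
  refine (ellOne_add_le _ _).trans ?_
  refine (add_le_add_left ((ellOne_add_le _ _).trans
    (add_le_add_left (ellOne_add_le _ _) _)) _).trans ?_
  simp only [ellOne_single]
  norm_num

/-! ### The tetrahedra as joins -/

/-- First angle. -/
def angA (s t : ℤˣ) : ℝ := if s = 1 then (if t = 1 then 0 else 4) else 2

/-- Second angle. -/
def angB (t : ℤˣ) : ℝ := if t = 1 then 1 else 3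

lemma hom_pair (s t : ℤˣ) {x y : ℝ} (hx : 0 ≤ x) (hy : 0 ≤ y) :
    hom 0 (x + y) (x * angA s t + y * angB t) = ((s : ℤ) : ℝ) * x ∧
      hom 1 (x + y) (x * angA s t + y * angB t) = ((t : ℤ) : ℝ) * y := by
  unfold hom
  rcases (add_nonneg hx hy).lt_or_eq with h | h
  · have hx' : x / (x + y) + y / (x + y) = 1 := by rw [← add_div, div_self h.ne']
    have hx0 : 0 ≤ x / (x + y) := div_nonneg hx h.le
    have hy0 : 0 ≤ y / (x + y) := div_nonneg hy h.le
    have ex : (x + y) * (x / (x + y)) = x := mul_div_cancel₀ _ h.ne'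
    have ey : (x + y) * (y / (x + y)) = y := mul_div_cancel₀ _ h.ne'
    set X := x / (x + y) with hX
    set Y := y / (x + y) with hY
    have hd : (x * angA s t + y * angB t) / (x + y) = X * angA s t + Y * angB t := by
      rw [hX, hY]; ring
    rw [hd]
    rcases Int.units_eq_one_or s with rfl | rfl <;> rcases Int.units_eq_one_or t with rfl | rfl
    · simp only [angA, angB, if_true, mul_zero, mul_one, zero_add]
      rw [sub_zero, wave_of_mem hy0 (by linarith),
        wave_of_abs (by rw [abs_of_nonpos (by linarith)]; linarith), abs_of_nonpos (by linarith)]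
      constructor
      · rw [show 1 - Y = X by linarith, ex]; simp
      · rw [show 1 - -(Y - 1) = Y by linarith, ey]; simp
    · simp only [angA, angB, if_true, show ¬ ((-1 : ℤˣ) = 1) by decide, if_false]
      have e1 : X * 4 + Y * 3 = 3 + X := by linarith
      rw [e1, sub_zero, wave_of_mem' (by linarith) (by linarith),
        wave_of_mem' (by linarith) (by linarith)]
      constructor
      · rw [show 3 + X - 3 = X by linarith, ex]; simp
      · rw [show 3 + X - 1 - 3 = -Y by linarith, mul_neg, ey]; simp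
    · simp only [angA, angB, if_true, show ¬ ((-1 : ℤˣ) = 1) by decide, if_false]
      have e1 : X * 2 + Y * 1 = 1 + X := by linarith
      rw [e1, sub_zero, wave_of_mem (by linarith) (by linarith),
        wave_of_mem (by linarith) (by linarith)]
      constructor
      · rw [show 1 - (1 + X) = -X by linarith, mul_neg, ex]; simp
      · rw [show 1 - (1 + X - 1) = Y by linarith, ey]; simp
    · simp only [angA, angB, show ¬ ((-1 : ℤˣ) = 1) by decide, if_false]
      have e1 : X * 2 + Y * 3 = 2 + Y := by linarith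
      rw [e1, sub_zero, wave_of_mem' (by linarith) (by linarith),
        wave_of_mem (by linarith) (by linarith)]
      constructor
      · rw [show 2 + Y - 3 = -X by linarith, mul_neg, ex]; simp
      · rw [show 1 - (2 + Y - 1) = -Y by linarith, mul_neg, ey]; simp
  · have hx0 : x = 0 := by linarith
    have hy0 : y = 0 := by linarith
    simp [hx0, hy0]

lemma cell_eq_q (ε : Fin 4 → ℤˣ) :
    (homeoL1 : C(cross.Space, L1Sphere)).comp (tau ε ⇑(1 : Equiv.Perm (Fin 4))) =
      q (angA (ε 0) (ε 1)) (angB (ε 1)) (angA (ε 2) (ε 3)) (angB (ε 3)) := by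
  ext1 p
  apply Subtype.ext
  unfold q
  rw [phi_val]
  have h1 : (((homeoL1 : C(cross.Space, L1Sphere)).comp (tau ε ⇑(1 : Equiv.Perm (Fin 4)))) p).1 =
      fun k => ((ε k : ℤ) : ℝ) * p k := by
    unfold tau
    rw [ContinuousMap.comp_apply, ContinuousMap.comp_apply, simplexMap_one]
    change (homeoL1 (cross.cell ε p)).1 = _
    rw [homeoL1_cell]
    rfl
  rw [h1]
  have hw0 : wt ![false, false, true, true] false p = p 0 + p 1 := by
    simp [wt, Fin.sum_univ_four]
  have hw1 : wt ![false, false, true, true] true p = p 2 + p 3 := by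
    simp [wt, Fin.sum_univ_four]
  have hm0 : mom ![false, false, true, true] ![angA (ε 0) (ε 1), angB (ε 1), angA (ε 2) (ε 3),
      angB (ε 3)] false p = p 0 * angA (ε 0) (ε 1) + p 1 * angB (ε 1) := by
    simp [mom, Fin.sum_univ_four]
  have hm1 : mom ![false, false, true, true] ![angA (ε 0) (ε 1), angB (ε 1), angA (ε 2) (ε 3),
      angB (ε 3)] true p = p 2 * angA (ε 2) (ε 3) + p 3 * angB (ε 3) := by
    simp [mom, Fin.sum_univ_four]
  rw [hw0, hw1, hm0, hm1]
  obtain ⟨a1, a2⟩ := hom_pair (ε 0) (ε 1) (stdSimplex.zero_le p 0) (stdSimplex.zero_le p 1)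
  obtain ⟨a3, a4⟩ := hom_pair (ε 2) (ε 3) (stdSimplex.zero_le p 2) (stdSimplex.zero_le p 3)
  rw [a1, a2, a3, a4]
  funext k
  fin_cases k <;> rfl

/-- Coordinates of a sign vector. -/
def quad : (ℤˣ × ℤˣ) × (ℤˣ × ℤˣ) ≃ (Fin 4 → ℤˣ) where
  toFun x := ![x.1.1, x.1.2, x.2.1, x.2.2]
  invFun ε := ((ε 0, ε 1), (ε 2, ε 3))
  left_inv x := rfl
  right_inv ε := by funext k; fin_cases k <;> rfl

lemma quad_apply (a b c d : ℤˣ) : quad ((a, b), (c, d)) = ![a, b, c, d] := rfl

lemma sum_units {M : Type} [AddCommMonoid M] (f : ℤˣ → M) : ∑ u : ℤˣ, f u = f 1 + f (-1) := by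
  rw [show (Finset.univ : Finset ℤˣ) = {1, -1} from rfl, Finset.sum_pair (by decide)]

lemma push_cyc : push (homeoL1 : C(cross.Space, L1Sphere)) 3 (cyc ⇑(1 : Equiv.Perm (Fin 4))) =
    BB 0 1 - BB 2 1 + BB 2 3 - BB 4 3 := by
  unfold cyc
  rw [map_sum]
  simp only [push_single, cell_eq_q]
  rw [← Equiv.sum_comp quad]
  simp only [Fintype.sum_prod_type, sum_units]
  have hne : ¬ ((-1 : ℤˣ) = 1) := by decide
  simp only [quad_apply, Matrix.cons_val, angA, angB, if_true, hne, if_false, sg,
    Fin.prod_univ_four, BB]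
  simp only [mul_one, one_mul, mul_neg, neg_neg, Units.val_one, Int.cast_one, Units.val_neg,
    Int.cast_neg, Finsupp.single_neg]
  abel

/-- The Gromov norm of the triangulation vanishes. -/
theorem gromovNorm_cross : cross.gromovNorm = 0 := by
  unfold Triangulation.gromovNorm
  apply le_antisymm
  · refine le_of_forall_pos_le_add fun δ hδ => ?_
    obtain ⟨n, hn⟩ := exists_nat_gt (4 / δ)
    have hn0 : (0 : ℝ) < n := lt_trans (by positivity) hn
    -- the chain in the sphere
    have h1 : (1 / (n : ℝ)) • BB 0 (4 * n) - BB 0 4 ∈ Bd L1Sphere 3 := by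
      have := (Bd L1Sphere 3).smul_mem (1 / (n : ℝ)) (BB_mul n)
      rw [smul_sub, smul_smul, one_div_mul_cancel hn0.ne', one_smul] at this
      exact this
    have h2 : (1 / (n : ℝ)) • BB 0 (4 * n) -
        push (homeoL1 : C(cross.Space, L1Sphere)) 3 (cyc ⇑(1 : Equiv.Perm (Fin 4))) ∈
          Bd L1Sphere 3 := by
      rw [push_cyc]
      have := (Bd L1Sphere 3).sub_mem h1 BB_sum_mem
      convert this using 1
      abel
    have h3 := push_mem (homeoL1.symm : C(L1Sphere, cross.Space)) h2
    rw [map_sub, push_symm_push] at h3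
    have h4 := (Bd cross.Space 3).sub_mem h3 fundamentalCycle_sub
    have h5 : push (homeoL1.symm : C(L1Sphere, cross.Space)) 3 ((1 / (n : ℝ)) • BB 0 (4 * n)) -
        cross.fundamentalCycle ∈ Bd cross.Space 3 := by
      convert h4 using 1
      abel
    obtain ⟨b, hb⟩ := h5
    have h6 : sInf {r : ℝ | ∃ (c : Chain cross.Space 3) (b : Chain cross.Space 4),
        c = cross.fundamentalCycle + boundary b ∧ r = ellOne c} ≤
        ellOne (push (homeoL1.symm : C(L1Sphere, cross.Space)) 3
          ((1 / (n : ℝ)) • BB 0 (4 * n))) := by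
      refine csInf_le ⟨0, ?_⟩ ⟨_, b, ?_, rfl⟩
      · rintro _ ⟨c, b, _, rfl⟩
        exact ellOne_nonneg c
      · rw [boundary_eq_bd, hb]; abel
    refine h6.trans ?_
    refine (ellOne_push_le _ _).trans ?_
    refine (ellOne_smul _ _).trans ?_
    rw [abs_of_pos (by positivity)]
    have h7 : 1 / (n : ℝ) * ellOne (BB 0 (4 * n)) ≤ 1 / (n : ℝ) * 4 :=
      mul_le_mul_of_nonneg_left (ellOne_BB _ _) (by positivity)
    refine h7.trans ?_
    rw [zero_add, div_mul_eq_mul_div, one_mul, div_le_iff₀ hn0]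
    rw [div_lt_iff₀ hδ] at hn
    linarith
  · refine Real.sInf_nonneg ?_
    rintro _ ⟨c, b, _, rfl⟩
    exact ellOne_nonneg c

end Pool.Agent.GenShape
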