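import Pool.Agent.GenShape.Norm

/-!
A point of `W(T)` for the cross-polytope triangulation.
-/

namespace Pool.Agent.GenShape

open Triangulation (IsDisjoint)

/-- Identified edges of the cross-polytope. -/
def SE (x y : (Fin 4 → ℤˣ) × Fin 4 × Fin 4) : Prop :=
  ((y.2.1 = x.2.1 ∧ y.2.2 = x.2.2) ∨ (y.2.1 = x.2.2 ∧ y.2.2 = x.2.1)) ∧
    y.1 x.2.1 = x.1 x.2.1 ∧ y.1 x.2.2 = x.1 x.2.2

lemma SE_of_same {x y : (Fin 4 → ℤˣ) × Fin 4 × Fin 4} (h : cross.SameEdge x y) : SE x y := by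
  unfold Triangulation.SameEdge at h
  induction h with
  | rel x y h =>
    rcases h with ⟨f, h1, h2, rfl⟩ | rfl
    · exact ⟨Or.inl ⟨rfl, rfl⟩, flip_ne h1.symm x.1, flip_ne h2.symm x.1⟩
    · exact ⟨Or.inr ⟨rfl, rfl⟩, rfl, rfl⟩
  | refl x => exact ⟨Or.inl ⟨rfl, rfl⟩, rfl, rfl⟩
  | symm x y _ ih =>
    obtain ⟨h1 | h1, h2, h3⟩ := ih
    · exact ⟨Or.inl ⟨h1.1.symm, h1.2.symm⟩, by rw [h1.1]; exact h2.symm, by rw [h1.2]; exact h3.symm⟩
    · exact ⟨Or.inr ⟨h1.2.symm, h1.1.symm⟩, by rw [h1.1]; exact h3.symm, by rw [h1.2]; exact h2.symm⟩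
  | trans x y z _ _ ih1 ih2 =>
    obtain ⟨h1, h2, h3⟩ := ih1
    obtain ⟨k1, k2, k3⟩ := ih2
    rcases h1 with h1 | h1 <;> rw [h1.1] at k2 <;> rw [h1.2] at k3 <;> rw [h1.1, h1.2] at k1
    · exact ⟨k1, k2.trans h2, k3.trans h3⟩
    · exact ⟨k1.symm.imp (fun h => h) (fun h => h), k3.trans h2, k2.trans h3⟩

lemma same_piecewise (ε ε' : Fin 4 → ℤˣ) (a b : Fin 4) (s : Finset (Fin 4))
    (ha : a ∉ s) (hb : b ∉ s) :
    cross.SameEdge (ε, a, b) (s.piecewise ε' ε, a, b) := by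
  induction s using Finset.induction_on with
  | empty => rw [Finset.piecewise_empty]; exact Relation.EqvGen.refl _
  | insert k s hk ih =>
    have ha' : a ∉ s := fun h => ha (Finset.mem_insert_of_mem h)
    have hb' : b ∉ s := fun h => hb (Finset.mem_insert_of_mem h)
    refine Relation.EqvGen.trans _ _ _ (ih ha' hb') ?_
    rw [Finset.piecewise_insert]
    by_cases h : (s.piecewise ε' ε) k = ε' k
    · rw [← h, Function.update_eq_self]; exact Relation.EqvGen.refl _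
    · apply Relation.EqvGen.rel
      left
      refine ⟨k, ?_, ?_, ?_⟩
      · rintro rfl; exact ha (Finset.mem_insert_self _ _)
      · rintro rfl; exact hb (Finset.mem_insert_self _ _)
      · have h2 : Function.update (s.piecewise ε' ε) k (ε' k) = flip k (s.piecewise ε' ε) := by
          unfold flip
          rw [Int.units_ne_iff_eq_neg.mp h, neg_neg]
        simp [cross, h2]

lemma same_of_SE {x y : (Fin 4 → ℤˣ) × Fin 4 × Fin 4} (h : SE x y) : cross.SameEdge x y := by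
  obtain ⟨ε, a, b⟩ := x
  obtain ⟨ε', a', b'⟩ := y
  obtain ⟨h1, h2, h3⟩ := h
  simp only at h1 h2 h3
  have h4 := same_piecewise ε ε' a b (Finset.univ.filter fun k => ε k ≠ ε' k)
    (by simp [h2]) (by simp [h3])
  have h5 : (Finset.univ.filter fun k => ε k ≠ ε' k).piecewise ε' ε = ε' := by
    funext k
    by_cases hk : ε k = ε' k
    · rw [Finset.piecewise_eq_of_notMem _ _ _ (by simp [hk])]; exact hk
    · rw [Finset.piecewise_eq_of_mem _ _ _ (by simp [hk])]
  rw [h5] at h4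
  rcases h1 with ⟨rfl, rfl⟩ | ⟨rfl, rfl⟩
  · exact h4
  · refine Relation.EqvGen.trans _ _ _ h4 (Relation.EqvGen.rel _ _ (Or.inr rfl))

lemma incidence_cross (t : Fin 4 → ℤˣ) (a b : Fin 4) (hab : a ≠ b) (s : Fin 4 → ℤˣ) (q : Fin 3)
    [Decidable (s a = t a ∧ s b = t b ∧ IsDisjoint q a b)] :
    cross.incidence (t, a, b) s q = if s a = t a ∧ s b = t b ∧ IsDisjoint q a b then 1 else 0 := by
  unfold Triangulation.incidence
  split_ifs with h
  · obtain ⟨h1, h2, h3⟩ := h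
    rw [Nat.card_eq_one_iff_unique]
    constructor
    · constructor
      rintro ⟨⟨p1, p2⟩, hp1, hp2, hp3⟩ ⟨⟨q1, q2⟩, hq1, hq2, hq3⟩
      have e1 := (SE_of_same hp3).1
      have e2 := (SE_of_same hq3).1
      simp only at e1 e2 hp1 hq1
      apply Subtype.ext
      rcases e1 with ⟨rfl, rfl⟩ | ⟨rfl, rfl⟩ <;> rcases e2 with ⟨rfl, rfl⟩ | ⟨rfl, rfl⟩
      · rfl
      · exact absurd (hp1.trans hq1) (lt_irrefl _)
      · exact absurd (hp1.trans hq1) (lt_irrefl _)
      · rfl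
    · rcases lt_or_gt_of_ne hab with hlt | hlt
      · exact ⟨⟨(a, b), hlt, h3, same_of_SE ⟨Or.inl ⟨rfl, rfl⟩, h1, h2⟩⟩⟩
      · exact ⟨⟨(b, a), hlt, ⟨hab.symm, h3.2.symm⟩, same_of_SE ⟨Or.inr ⟨rfl, rfl⟩, h1, h2⟩⟩⟩
  · rw [Nat.card_eq_zero]
    left
    constructor
    rintro ⟨⟨p1, p2⟩, hp1, hp2, hp3⟩
    apply h
    obtain ⟨e1, e2, e3⟩ := SE_of_same hp3
    simp only at e1 e2 e3 hp2
    refine ⟨e2, e3, ?_⟩
    rcases e1 with ⟨rfl, rfl⟩ | ⟨rfl, rfl⟩
    · exact hp2
    · exact ⟨hab, hp2.2.symm⟩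

/-- The square root of three as a complex number. -/
noncomputable def rt : ℂ := ((Real.sqrt 3 : ℝ) : ℂ)

lemma rt_sq : rt * rt = 3 := by
  unfold rt
  rw [← Complex.ofReal_mul, Real.mul_self_sqrt (by norm_num)]
  norm_num

/-- Shape of a positive tetrahedron. -/
noncomputable def zPos : ℂ := (1 + Complex.I * rt) / 2

/-- Shapes of the negative tetrahedra of the first type. -/
noncomputable def zNegP : Fin 3 → ℂ :=
  ![1 - Complex.I * rt, (3 - Complex.I * rt) / 4, -(Complex.I * rt) / 3]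

/-- Shapes of the negative tetrahedra of the second type. -/
noncomputable def zNegQ : Fin 3 → ℂ :=
  ![(1 - Complex.I * rt) / 4, -(Complex.I * rt), (3 - Complex.I * rt) / 3]

/-- The shapes. -/
noncomputable def zc (ε : Fin 4 → ℤˣ) (q : Fin 3) : ℂ :=
  if ∏ k, ε k = 1 then zPos else if ε 0 * ε 1 = 1 then zNegP q else zNegQ q

lemma I_rt_sq : (Complex.I * rt) * (Complex.I * rt) = -3 := by
  linear_combination (rt * rt) * Complex.I_mul_I - rt_sq

lemma zPos_ne : zPos ≠ 1 ∧ zPos = 1 / (1 - zPos) := by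
  have h : zPos ≠ 1 := by
    intro h
    have h2 : Complex.I * rt = 1 := by unfold zPos at h; linear_combination 2 * h
    have := I_rt_sq
    rw [h2] at this
    norm_num at this
  refine ⟨h, ?_⟩
  rw [eq_div_iff (sub_ne_zero.mpr h.symm)]
  unfold zPos
  linear_combination (-1 / 4 : ℂ) * I_rt_sq

lemma shape_aux {z w : ℂ} (h : w * (1 - z) = 1) : z ≠ 1 ∧ w = 1 / (1 - z) := by
  have hz : z ≠ 1 := by rintro rfl; simp at h
  exact ⟨hz, by rw [eq_div_iff (sub_ne_zero.mpr hz.symm)]; exact h⟩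

lemma zNegP_next (q : Fin 3) : zNegP q ≠ 1 ∧ zNegP (q - 1) = 1 / (1 - zNegP q) := by
  apply shape_aux
  fin_cases q
  · change (-(Complex.I * rt) / 3) * (1 - (1 - Complex.I * rt)) = 1
    linear_combination (-1 / 3 : ℂ) * I_rt_sq
  · change (1 - Complex.I * rt) * (1 - (3 - Complex.I * rt) / 4) = 1
    linear_combination (-1 / 4 : ℂ) * I_rt_sq
  · change ((3 - Complex.I * rt) / 4) * (1 - (-(Complex.I * rt) / 3)) = 1
    linear_combination (-1 / 12 : ℂ) * I_rt_sq

lemma zNegQ_next (q : Fin 3) : zNegQ q ≠ 1 ∧ zNegQ (q - 1) = 1 / (1 - zNegQ q) := by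
  apply shape_aux
  fin_cases q
  · change ((3 - Complex.I * rt) / 3) * (1 - ((1 - Complex.I * rt) / 4)) = 1
    linear_combination (-1 / 12 : ℂ) * I_rt_sq
  · change ((1 - Complex.I * rt) / 4) * (1 - (-(Complex.I * rt))) = 1
    linear_combination (-1 / 4 : ℂ) * I_rt_sq
  · change (-(Complex.I * rt)) * (1 - (3 - Complex.I * rt) / 3) = 1
    linear_combination (-1 / 3 : ℂ) * I_rt_sq

lemma prodA : zPos * zPos * zNegP 0 * zNegP 0 = 4 := by
  change (1 + Complex.I * rt) / 2 * ((1 + Complex.I * rt) / 2) * (1 - Complex.I * rt) *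
    (1 - Complex.I * rt) = 4
  linear_combination (-1 / 4 : ℂ) * (5 - (Complex.I * rt) * (Complex.I * rt)) * I_rt_sq

lemma prodB : zPos * zPos * zNegQ 0 * zNegQ 0 = 1 / 4 := by
  change (1 + Complex.I * rt) / 2 * ((1 + Complex.I * rt) / 2) * ((1 - Complex.I * rt) / 4) *
    ((1 - Complex.I * rt) / 4) = 1 / 4
  linear_combination (-1 / 64 : ℂ) * (5 - (Complex.I * rt) * (Complex.I * rt)) * I_rt_sq

lemma prodC : zPos * zPos * zNegP 1 * zNegQ 1 = 3 / 2 := by
  change (1 + Complex.I * rt) / 2 * ((1 + Complex.I * rt) / 2) * ((3 - Complex.I * rt) / 4) *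
    (-(Complex.I * rt)) = 3 / 2
  linear_combination (1 / 16 : ℂ) * ((Complex.I * rt) * (Complex.I * rt) - (Complex.I * rt) - 8) *
    I_rt_sq

lemma prodD : zPos * zPos * zNegP 2 * zNegQ 2 = 2 / 3 := by
  change (1 + Complex.I * rt) / 2 * ((1 + Complex.I * rt) / 2) * (-(Complex.I * rt) / 3) *
    ((3 - Complex.I * rt) / 3) = 2 / 3
  linear_combination (1 / 36 : ℂ) * ((Complex.I * rt) * (Complex.I * rt) - (Complex.I * rt) - 8) *
    I_rt_sq

instance (q : Fin 3) (a b : Fin 4) : Decidable (IsDisjoint q a b) := by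
  unfold IsDisjoint; infer_instance

lemma prod_units {M : Type} [CommMonoid M] (f : ℤˣ → M) : ∏ u : ℤˣ, f u = f 1 * f (-1) := by
  rw [show (Finset.univ : Finset ℤˣ) = {1, -1} from rfl, Finset.prod_pair (by decide)]

lemma prod_cross (t : Fin 4 → ℤˣ) (a b : Fin 4) (hab : a ≠ b) :
    ∏ s : Fin 4 → ℤˣ, ∏ q : Fin 3, zc s q ^ cross.incidence (t, a, b) s q =
      ∏ s : Fin 4 → ℤˣ, ∏ q : Fin 3,
        if s a = t a ∧ s b = t b ∧ IsDisjoint q a b then zc s q else 1 := by
  refine Finset.prod_congr rfl fun s _ => Finset.prod_congr rfl fun q _ => ?_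
  rw [incidence_cross t a b hab s q]
  split_ifs <;> simp

lemma edge_cross (t : Fin 4 → ℤˣ) (a b : Fin 4) (hab : a ≠ b) :
    ∃ r : ℝ, 0 < r ∧ ∏ s : Fin 4 → ℤˣ, ∏ q : Fin 3, zc s q ^ cross.incidence (t, a, b) s q =
      (r : ℂ) := by
  rw [prod_cross t a b hab, ← Equiv.prod_comp quad]
  have hne : ¬ ((-1 : ℤˣ) = 1) := by decide
  have hne' : ¬ ((1 : ℤˣ) = -1) := by decide
  simp only [Fintype.prod_prod_type, prod_units, quad_apply, zc, Fin.prod_univ_four,
    Fin.prod_univ_three, Matrix.cons_val_zero, Matrix.cons_val_one, Matrix.cons_val]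
  rcases Int.units_eq_one_or (t a) with ha | ha <;> rcases Int.units_eq_one_or (t b) with hb | hb <;>
    rw [ha, hb] <;> fin_cases a <;> fin_cases b <;>
    first
    | exact absurd rfl hab
    | (simp [IsDisjoint]
       first
       | exact ⟨4, by norm_num, by push_cast; linear_combination prodA⟩
       | exact ⟨1 / 4, by norm_num, by push_cast; linear_combination prodB⟩
       | exact ⟨3 / 2, by norm_num, by push_cast; linear_combination prodC⟩
       | exact ⟨2 / 3, by norm_num, by push_cast; linear_combination prodD⟩)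

lemma zc_mem : zc ∈ cross.shapes := by
  refine ⟨fun t q => ?_, edge_cross⟩
  unfold Triangulation.next
  simp only [cross]
  by_cases h : ∏ k, t k = 1
  · simp only [zc, h, if_true]
    exact zPos_ne
  · simp only [zc, h, if_false]
    by_cases h2 : t 0 * t 1 = 1
    · simp only [h2, if_true]
      exact zNegP_next q
    · simp only [h2, if_false]
      exact zNegQ_next q

end Pool.Agent.GenShape
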