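import Pool.Agent.GenShape.Cross

/-!
The `ℓ¹`-sphere is homeomorphic to the Euclidean unit sphere.
-/

namespace Pool.Agent.GenShape

open Metric

lemma l1_pos {y : EuclideanSpace ℝ (Fin 4)} (hy : y ≠ 0) : 0 < ∑ k, |y k| := by
  rcases (Finset.sum_nonneg fun k _ => abs_nonneg (y k) : 0 ≤ ∑ k, |y k|).lt_or_eq with h | h
  · exact h
  · exfalso
    apply hy
    have := (Finset.sum_eq_zero_iff_of_nonneg fun k _ => abs_nonneg (y k)).mp h.symm
    ext k
    simpa using this k (Finset.mem_univ k)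

lemma ne_zero_of_l1 (x : L1Sphere) : (WithLp.toLp 2 x.1 : EuclideanSpace ℝ (Fin 4)) ≠ 0 := by
  intro h
  have h1 : ∀ k, x.1 k = 0 := fun k => by
    have := congrArg (fun v : EuclideanSpace ℝ (Fin 4) => v k) h
    simpa using this
  have h2 := x.2
  simp [h1] at h2

lemma ne_zero_of_sphere (y : sphere (0 : EuclideanSpace ℝ (Fin 4)) 1) :
    (y : EuclideanSpace ℝ (Fin 4)) ≠ 0 := by
  intro h
  have := y.2
  rw [h] at this
  simp at this

lemma continuous_toLp_val : Continuous fun x : L1Sphere =>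
    (WithLp.toLp 2 x.1 : EuclideanSpace ℝ (Fin 4)) :=
  (PiLp.continuous_toLp 2 _).comp continuous_subtype_val

/-- Radial projection. -/
noncomputable def sphereHomeo : L1Sphere ≃ₜ sphere (0 : EuclideanSpace ℝ (Fin 4)) 1 where
  toFun x := ⟨‖(WithLp.toLp 2 x.1 : EuclideanSpace ℝ (Fin 4))‖⁻¹ • WithLp.toLp 2 x.1, by
    rw [mem_sphere_zero_iff_norm, norm_smul, norm_inv, norm_norm]
    exact inv_mul_cancel₀ (norm_ne_zero_iff.mpr (ne_zero_of_l1 x))⟩
  invFun y := ⟨fun k => (∑ l, |y.1 l|)⁻¹ * y.1 k, by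
    have h := l1_pos (ne_zero_of_sphere y)
    simp only [abs_mul, abs_inv, abs_of_pos h, ← Finset.mul_sum]
    exact inv_mul_cancel₀ h.ne'⟩
  left_inv x := by
    apply Subtype.ext
    funext k
    have hn : 0 < ‖(WithLp.toLp 2 x.1 : EuclideanSpace ℝ (Fin 4))‖ :=
      norm_pos_iff.mpr (ne_zero_of_l1 x)
    have hx := x.2
    simp only [PiLp.smul_apply, smul_eq_mul, abs_mul, abs_inv, ← Finset.mul_sum, hx,
      mul_one, inv_inv, abs_of_pos hn]
    rw [← mul_assoc, mul_inv_cancel₀ hn.ne', one_mul]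
  right_inv y := by
    apply Subtype.ext
    have h := l1_pos (ne_zero_of_sphere y)
    have h1 : (WithLp.toLp 2 (fun k => (∑ l, |y.1 l|)⁻¹ * y.1 k) : EuclideanSpace ℝ (Fin 4)) =
        (∑ l, |y.1 l|)⁻¹ • y.1 := by
      ext k; simp
    simp only [h1]
    rw [norm_smul, norm_inv, Real.norm_of_nonneg h.le, norm_eq_of_mem_sphere, mul_one, inv_inv,
      smul_smul, mul_inv_cancel₀ h.ne', one_smul]
  continuous_toFun := by
    apply Continuous.subtype_mk
    refine Continuous.smul (Continuous.inv₀ continuous_toLp_val.norm ?_) continuous_toLp_val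
    intro x
    exact norm_ne_zero_iff.mpr (ne_zero_of_l1 x)
  continuous_invFun := by
    apply Continuous.subtype_mk
    refine continuous_pi fun k => ?_
    have hc : ∀ l : Fin 4, Continuous fun y : sphere (0 : EuclideanSpace ℝ (Fin 4)) 1 => y.1 l :=
      fun l => ((PiLp.continuous_apply 2 (fun _ : Fin 4 => ℝ) l)).comp continuous_subtype_val
    refine Continuous.mul (Continuous.inv₀ (continuous_finsetSum _ fun l _ => (hc l).abs) ?_) (hc k)
    intro y
    exact (l1_pos (ne_zero_of_sphere y)).ne'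

/-- The quotient of the cross-polytope triangulation is the 3-sphere. -/
lemma cross_space : Nonempty (cross.Space ≃ₜ sphere (0 : EuclideanSpace ℝ (Fin 4)) 1) :=
  ⟨homeoL1.trans sphereHomeo⟩

end Pool.Agent.GenShape
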