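import Pool.Agent.GenShape.Shape
import Pool.Agent.GenShape.Sphere

/-!
The volume of the shapes on the cross-polytope triangulation is positive.
-/

namespace Pool.Agent.GenShape

open Real

lemma intervalIntegrable_lob (a b : ℝ) :
    IntervalIntegrable (fun s => Real.log |2 * Real.sin s|) MeasureTheory.volume a b := by
  have h : MeromorphicOn (fun s : ℝ => 2 * Real.sin s) (Set.uIcc a b) := by
    intro x _
    exact (analyticAt_const.mul Real.analyticAt_sin).meromorphicAt
  exact h.intervalIntegrable_log_norm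

lemma lob_neg (t : ℝ) : lobachevsky (-t) = -lobachevsky t := by
  unfold lobachevsky
  have h := intervalIntegral.integral_comp_neg (a := 0) (b := t)
    (fun s => Real.log |2 * Real.sin s|)
  simp only [Real.sin_neg, mul_neg, abs_neg, neg_zero] at h
  rw [h, intervalIntegral.integral_symm (-t) 0]

lemma lob_diff (a b : ℝ) :
    lobachevsky b - lobachevsky a = -∫ s in a..b, Real.log |2 * Real.sin s| := by
  unfold lobachevsky
  have h := intervalIntegral.integral_add_adjacent_intervals
    (intervalIntegrable_lob 0 a) (intervalIntegrable_lob a b)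
  linarith

/-- Strict concavity of the Lobachevsky function at three points. -/
lemma lob_concave : lobachevsky (π / 6) + lobachevsky (π / 2) < 2 * lobachevsky (π / 3) := by
  have hpi := Real.pi_pos
  have h1 := lob_diff (π / 6) (π / 3)
  have h2 := lob_diff (π / 3) (π / 2)
  have h3 : ∫ s in (π / 6)..(π / 3), Real.log |2 * Real.sin s| ≤
      ∫ s in (π / 6)..(π / 3), Real.log |2 * Real.sin (π / 3)| := by
    refine intervalIntegral.integral_mono_on (by linarith) (intervalIntegrable_lob _ _)
      intervalIntegrable_const fun s hs => ?_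
    have hs0 : 0 < Real.sin s := Real.sin_pos_of_pos_of_lt_pi (by linarith [hs.1]) (by linarith [hs.2])
    have hs1 : Real.sin s ≤ Real.sin (π / 3) :=
      Real.sin_le_sin_of_le_of_le_pi_div_two (by linarith [hs.1]) (by linarith) hs.2
    apply Real.log_le_log (abs_pos.mpr (by positivity))
    rw [abs_of_pos (by positivity), abs_of_pos (by linarith)]
    linarith
  have h4 : ∫ s in (π / 3)..(π / 2), Real.log |2 * Real.sin (π / 3)| <
      ∫ s in (π / 3)..(π / 2), Real.log |2 * Real.sin s| := by
    refine intervalIntegral.integral_lt_integral_of_continuousOn_of_le_of_exists_lt (by linarith)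
      continuousOn_const ?_ ?_ ?_
    · refine ContinuousOn.log (by fun_prop) fun s hs => ?_
      have hs0 : 0 < Real.sin s :=
        Real.sin_pos_of_pos_of_lt_pi (by linarith [hs.1]) (by linarith [hs.2])
      exact (abs_pos.mpr (by positivity)).ne'
    · intro s hs
      have hs0 : 0 < Real.sin (π / 3) :=
        Real.sin_pos_of_pos_of_lt_pi (by linarith) (by linarith)
      have hs1 : Real.sin (π / 3) ≤ Real.sin s :=
        Real.sin_le_sin_of_le_of_le_pi_div_two (by linarith) hs.2 hs.1.le
      apply Real.log_le_log (abs_pos.mpr (by positivity))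
      rw [abs_of_pos (by positivity), abs_of_pos (by linarith)]
      linarith
    · refine ⟨π / 2, ⟨by linarith, le_rfl⟩, ?_⟩
      have hs0 : 0 < Real.sin (π / 3) :=
        Real.sin_pos_of_pos_of_lt_pi (by linarith) (by linarith)
      have hs1 : Real.sin (π / 3) < Real.sin (π / 2) :=
        Real.sin_lt_sin_of_lt_of_le_pi_div_two (by linarith) le_rfl (by linarith)
      apply Real.log_lt_log (abs_pos.mpr (by positivity))
      rw [abs_of_pos (by positivity), abs_of_pos (by linarith)]
      linarith
  rw [intervalIntegral.integral_const] at h3 h4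
  simp only [smul_eq_mul] at h3 h4
  have e1 : π / 3 - π / 6 = π / 6 := by ring
  have e2 : π / 2 - π / 3 = π / 6 := by ring
  rw [e1] at h3
  rw [e2] at h4
  linarith

lemma arg_of {r θ x y : ℝ} (hr : 0 < r) (h1 : -π < θ) (h2 : θ ≤ π) (hx : r * Real.cos θ = x)
    (hy : r * Real.sin θ = y) {z : ℂ} (hz : z = x + y * Complex.I) : z.arg = θ := by
  have h := Complex.arg_mul_cos_add_sin_mul_I hr ⟨h1, h2⟩
  rw [← h]
  congr 1
  rw [hz, ← hx, ← hy]
  push_cast
  ring

lemma rt_def : rt = ((Real.sqrt 3 : ℝ) : ℂ) := rfl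

lemma sqrt3_pos : 0 < Real.sqrt 3 := Real.sqrt_pos.mpr (by norm_num)

lemma sqrt3_sq : Real.sqrt 3 * Real.sqrt 3 = 3 := Real.mul_self_sqrt (by norm_num)

lemma arg_zPos : zPos.arg = π / 3 := by
  have hpi := Real.pi_pos
  refine arg_of (r := 1) (x := 1 / 2) (y := Real.sqrt 3 / 2) one_pos (by linarith) (by linarith)
    (by rw [Real.cos_pi_div_three]; norm_num) (by rw [Real.sin_pi_div_three]; ring) ?_
  unfold zPos; rw [rt_def]; push_cast; ring

lemma arg_P0 : (zNegP 0).arg = -(π / 3) := by
  have hpi := Real.pi_pos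
  refine arg_of (r := 2) (x := 1) (y := -Real.sqrt 3) two_pos (by linarith) (by linarith)
    (by rw [Real.cos_neg, Real.cos_pi_div_three]; norm_num)
    (by rw [Real.sin_neg, Real.sin_pi_div_three]; ring) ?_
  change 1 - Complex.I * rt = _
  rw [rt_def]; push_cast; ring

lemma arg_P1 : (zNegP 1).arg = -(π / 6) := by
  have hpi := Real.pi_pos
  refine arg_of (r := Real.sqrt 3 / 2) (x := 3 / 4) (y := -(Real.sqrt 3 / 4))
    (by have := sqrt3_pos; positivity) (by linarith) (by linarith)
    (by rw [Real.cos_neg, Real.cos_pi_div_six]; linear_combination (1 / 4) * sqrt3_sq)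
    (by rw [Real.sin_neg, Real.sin_pi_div_six]; ring) ?_
  change (3 - Complex.I * rt) / 4 = _
  rw [rt_def]; push_cast; ring

lemma arg_P2 : (zNegP 2).arg = -(π / 2) := by
  have hpi := Real.pi_pos
  refine arg_of (r := Real.sqrt 3 / 3) (x := 0) (y := -(Real.sqrt 3 / 3))
    (by have := sqrt3_pos; positivity) (by linarith) (by linarith)
    (by rw [Real.cos_neg, Real.cos_pi_div_two]; ring)
    (by rw [Real.sin_neg, Real.sin_pi_div_two]; ring) ?_
  change -(Complex.I * rt) / 3 = _
  rw [rt_def]; push_cast; ring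

lemma arg_Q0 : (zNegQ 0).arg = -(π / 3) := by
  have hpi := Real.pi_pos
  refine arg_of (r := 1 / 2) (x := 1 / 4) (y := -(Real.sqrt 3 / 4)) (by norm_num) (by linarith)
    (by linarith) (by rw [Real.cos_neg, Real.cos_pi_div_three]; norm_num)
    (by rw [Real.sin_neg, Real.sin_pi_div_three]; ring) ?_
  change (1 - Complex.I * rt) / 4 = _
  rw [rt_def]; push_cast; ring

lemma arg_Q1 : (zNegQ 1).arg = -(π / 2) := by
  have hpi := Real.pi_pos
  refine arg_of (r := Real.sqrt 3) (x := 0) (y := -Real.sqrt 3)
    sqrt3_pos (by linarith) (by linarith)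
    (by rw [Real.cos_neg, Real.cos_pi_div_two]; ring)
    (by rw [Real.sin_neg, Real.sin_pi_div_two]; ring) ?_
  change -(Complex.I * rt) = _
  rw [rt_def]; push_cast; ring

lemma arg_Q2 : (zNegQ 2).arg = -(π / 6) := by
  have hpi := Real.pi_pos
  refine arg_of (r := 2 * Real.sqrt 3 / 3) (x := 1) (y := -(Real.sqrt 3 / 3))
    (by have := sqrt3_pos; positivity) (by linarith) (by linarith)
    (by rw [Real.cos_neg, Real.cos_pi_div_six]; linear_combination (1 / 3) * sqrt3_sq)
    (by rw [Real.sin_neg, Real.sin_pi_div_six]; ring) ?_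
  change (3 - Complex.I * rt) / 3 = _
  rw [rt_def]; push_cast; ring

lemma volume_zc : volume zc =
    8 * (2 * lobachevsky (π / 3) - lobachevsky (π / 6) - lobachevsky (π / 2)) := by
  have hne : ¬ ((-1 : ℤˣ) = 1) := by decide
  unfold volume
  rw [← Equiv.sum_comp quad]
  simp only [Fintype.sum_prod_type, sum_units, quad_apply, zc, Fin.prod_univ_four,
    Fin.sum_univ_three, Matrix.cons_val_zero, Matrix.cons_val_one, Matrix.cons_val, mul_one,
    one_mul, mul_neg, neg_neg, neg_mul, hne, if_true, if_false, arg_zPos, arg_P0, arg_P1, arg_P2,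
    arg_Q0, arg_Q1, arg_Q2, lob_neg]
  ring

/-- The counterexample. -/
theorem main : Nonempty (cross.Space ≃ₜ Metric.sphere (0 : EuclideanSpace ℝ (Fin 4)) 1) ∧
    ∃ z ∈ cross.shapes, regularVolume * cross.gromovNorm < volume z := by
  refine ⟨cross_space, zc, zc_mem, ?_⟩
  rw [gromovNorm_cross, mul_zero, volume_zc]
  have := lob_concave
  linarith

end Pool.Agent.GenShape
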